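import Pool.Agent.helper17.MK.Spec

/-!
# SV: the sieve constants for one form
-/

set_option autoImplicit false

namespace Pool.Agent.MK

open Finset Real Pool.Agent.helper39.MT Pool.Agent.helper85.FC

theorem SV_Vw_nonneg (w : ℝ) : 0 ≤ Vw w := by
  unfold Vw
  refine Finset.prod_nonneg fun p hp => ?_
  have hp' : p.Prime := by
    have := (Finset.mem_filter.mp hp).2
    exact this.1
  have h2 : (2 : ℝ) ≤ (p : ℝ) := by exact_mod_cast hp'.two_le
  have h3 : 1 / (p : ℝ) ≤ 1 := by
    rw [div_le_one (by linarith)]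
    linarith
  linarith

/-- the arithmetic -/
theorem SV_arith (A V lw L M c e eps : ℝ) (hL : 0 < L) (hV : 0 ≤ V) (hc0 : 0 ≤ c) (hc1 : c ≤ 1)
    (he0 : 0 < e) (he1 : e ≤ 1) (hee : e ≤ eps) (hB : A * (V * lw) ≤ 2 + e / 2)
    (hM : M ≤ A * (lw / L) * (c + e / 4)) : V * M ≤ 2 / L * (c + eps) := by
  have h1 : V * M ≤ V * (A * (lw / L) * (c + e / 4)) := mul_le_mul_of_nonneg_left hM hV
  have h2 : V * (A * (lw / L) * (c + e / 4)) = (A * (V * lw)) * (c + e / 4) / L := by
    field_simp
  have h3 : (A * (V * lw)) * (c + e / 4) ≤ (2 + e / 2) * (c + e / 4) :=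
    mul_le_mul_of_nonneg_right hB (by linarith)
  have h4 : (2 + e / 2) * (c + e / 4) ≤ 2 * (c + eps) := by nlinarith
  have h5 : 2 / L * (c + eps) = (2 * (c + eps)) / L := by ring
  rw [h5]
  refine h1.trans ?_
  rw [h2]
  exact div_le_div_of_nonneg_right (h3.trans h4) hL.le

theorem SV (h1 : AV_stmt) (h2 : MM_stmt) : SV_stmt := by
  intro eps heps
  set e : ℝ := min eps 1 with he
  have he0 : 0 < e := lt_min heps one_pos
  have he1 : e ≤ 1 := min_le_right _ _
  have hee : e ≤ eps := min_le_left _ _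
  refine ⟨4 + 16 / e, by have : 0 < 16 / e := by positivity
                         linarith, ?_⟩
  intro u hu
  have h16 : 0 < 16 / e := by positivity
  have hu4 : 4 ≤ u := by linarith
  obtain ⟨A, F, f, hD, hA⟩ := h1 u hu4
  obtain ⟨w1, hw12, hw1⟩ := hA (e / 4) (by linarith)
  obtain ⟨w2, hw22, hw2⟩ := h2 u A F f hu4 hD (e / 4) (by linarith)
  obtain ⟨w3, hw32, hw3⟩ := RLS.GEN_all u A F f hu4 hD (e / 4) (by linarith)
  refine ⟨max w1 (max w2 w3), hw12.trans (le_max_left _ _), ?_⟩
  intro w L hw hL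
  have hww1 : w1 ≤ w := (le_max_left _ _).trans hw
  have hww2 : w2 ≤ w := ((le_max_left _ _).trans (le_max_right _ _)).trans hw
  have hww3 : w3 ≤ w := ((le_max_right _ _).trans (le_max_right _ _)).trans hw
  have hwpos : 0 < w := by linarith
  have hlw : 0 < Real.log w := Real.log_pos (by linarith)
  have hLpos : 0 < L := by rw [hL]; exact mul_pos (by linarith) hlw
  have hV := SV_Vw_nonneg w
  have hB : A * (Vw w * Real.log w) ≤ 2 + e / 2 := by
    have h5 := hw1 w hww1
    have h6 : 2 * u / (u - 1) ≤ 2 + e / 8 := by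
      rw [div_le_iff₀ (by linarith)]
      have h7 : 16 / e ≤ u - 1 := by linarith
      have h8 : 16 ≤ (u - 1) * e := by
        rwa [div_le_iff₀ he0] at h7
      nlinarith
    linarith
  constructor
  · refine SV_arith A (Vw w) (Real.log w) L _ (1 - 1 / 6000) e eps hLpos hV (by norm_num)
      (by norm_num) he0 he1 hee hB ?_
    have h9 := hw2 w L hww2 (by rw [hL]; exact mul_le_mul_of_nonneg_right hu4 hlw.le) hL.le
    exact h9
  · refine SV_arith A (Vw w) (Real.log w) L _ 1 e eps hLpos hV (by norm_num)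
      le_rfl he0 he1 hee hB ?_
    have hwz : w ≤ Real.exp (L / 3) := by
      rw [← Real.log_le_iff_le_exp hwpos, hL]
      nlinarith
    have hDw : Real.exp L ≤ w ^ u := by
      rw [Real.rpow_def_of_pos hwpos, hL, mul_comm]
    have hg := (hw3 w (Real.exp (L / 3)) (Real.exp L) hww3 hwz hDw).1
      (Real.exp_le_exp.mpr (by linarith))
    rw [Real.log_exp, Real.log_exp] at hg
    have hM : Mn (RLS.lam true L) gi (RLS.PP w (Real.exp (L / 3))) =
        RLS.SS true (fun p : ℕ => 1 / (p : ℝ)) L (RLS.PP w (Real.exp (L / 3))) := rfl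
    rw [hM]
    refine hg.trans ?_
    have h3 : L / (L / 3) = 3 := by field_simp
    rw [h3, hD.Fs 3 (by norm_num) le_rfl]
    have hA3 := hD.A3
    have h10 : Real.log w / (L / 3) = 3 * (Real.log w / L) := by field_simp
    rw [h10]
    have h11 : 0 ≤ Real.log w / L := by positivity
    have h12 : 3 * (Real.log w / L) * (A / 3 + e / 4) = (Real.log w / L) * (A + 3 * (e / 4)) := by
      ring
    have h13 : A * (Real.log w / L) * (1 + e / 4) = (Real.log w / L) * (A + A * (e / 4)) := by ring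
    rw [h12, h13]
    refine mul_le_mul_of_nonneg_left ?_ h11
    nlinarith

end Pool.Agent.MK
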